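import Mathlib
import Pool.Agent.H55.EquivDeg
import Pool.Agent.H55.Even

/-!
# The girth conjecture as a statement about all graphs of bounded degree, and as a Ramsey problem

For every `m ≥ 2` the girth conjecture for `m` (graphs with `n` vertices, girth greater than `2 m`
and at least `c n ^ (1 + 1 / m)` edges, for all large `n`) is shown to be equivalent to each of the
following statements.

* (D) Every finite graph `H` with all degrees at most `d` is the union of at most
  `C d ^ (1 - 1 / m)` subgraphs of girth greater than `2 m` with all degrees at most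
  `C d ^ (1 / m)`. There is no condition on the number of vertices of `H`.
* (E) Every finite graph `H` with all degrees at most `d` has a subgraph of girth greater than
  `2 m` with at least `c d ^ (1 / m - 1) e(H)` edges.
* (R) The edges of the complete graph on `n ≤ c q ^ (m / (m - 1))` vertices can be coloured with
  `q` colours such that all cycles in one colour are longer than `2 m`.

So complete graphs are the worst host graphs, and a positive answer for complete graphs gives
decompositions for all graphs of bounded degree without any loss in the order of magnitude (random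
copies of an extremal graph lose a factor `log n`, and do not give (D) for large `n` at all). By
counting edges all three are best possible up to the constants. They hold for `m = 2` and `m = 3`.

Proof of (D). Pruning gives graphs `G` with `N` vertices, about `N ^ (1 + 1 / m)` edges, girth
greater than `2 m` and all degrees `O (N ^ (1 / m))`. Let all degrees of `H` be at most `d = 4 r`,
`N = 16 r`. `O (N ^ (1 - 1 / m))` random maps from `H` to `G` pull back pieces of `H` on which the
map is injective on all neighbourhoods, so these have girth greater than `2 m`. By an exponential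
moment bound and the local lemma, some choice of the maps leaves a graph with all degrees at most
`3 r`. Iterate; the numbers of pieces form a geometric series.
-/

set_option autoImplicit false

namespace Pool.Agent.Results.MP_97687e_co.DecompositionForm

open SimpleGraph Pool.Agent.H55

/-- The girth conjecture for the parameter `m`. -/
def GirthConjecture (m : ℕ) : Prop :=
  ∃ c : ℝ, 0 < c ∧ ∃ N : ℕ, ∀ n : ℕ, N ≤ n → ∃ G : SimpleGraph (Fin n),
    ((2 * m : ℕ) : ℕ∞) < G.egirth ∧ c * (n : ℝ) ^ (1 + 1 / (m : ℝ)) ≤ (G.edgeSet.ncard : ℝ)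

/-- (D) Every finite graph with all degrees at most `d` is the union of at most
`C d ^ (1 - 1 / m)` subgraphs of girth greater than `2 m` with all degrees at most
`C d ^ (1 / m)`. -/
def Decomposition (m : ℕ) : Prop :=
  ∃ C : ℝ, ∀ (V : Type) [Finite V] (H : SimpleGraph V) (d : ℕ), 1 ≤ d →
    (∀ x, (H.neighborSet x).ncard ≤ d) →
    ∃ M : ℕ, (M : ℝ) ≤ C * (d : ℝ) ^ (1 - 1 / (m : ℝ)) ∧
      UnionOf (fun F : SimpleGraph V => ((2 * m : ℕ) : ℕ∞) < F.egirth ∧
        ∀ x, ((F.neighborSet x).ncard : ℝ) ≤ C * (d : ℝ) ^ (1 / (m : ℝ))) H M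

/-- (E) Every finite graph `H` with all degrees at most `d` has a subgraph of girth greater than
`2 m` with at least `c d ^ (1 / m - 1) e(H)` edges. -/
def RelativeTuran (m : ℕ) : Prop :=
  ∃ c : ℝ, 0 < c ∧ ∀ (V : Type) [Finite V] (H : SimpleGraph V) (d : ℕ), 1 ≤ d →
    (∀ x, (H.neighborSet x).ncard ≤ d) → ∃ F ≤ H, ((2 * m : ℕ) : ℕ∞) < F.egirth ∧
      c * (d : ℝ) ^ (1 / (m : ℝ) - 1) * (H.edgeSet.ncard : ℝ) ≤ (F.edgeSet.ncard : ℝ)

/-- (R) If `n ≤ c q ^ (m / (m - 1))`, the edges of the complete graph on `n` vertices can be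
coloured with `q` colours such that all colour classes have girth greater than `2 m`. -/
def Ramsey (m : ℕ) : Prop :=
  ∃ c : ℝ, 0 < c ∧ ∀ q n : ℕ, (n : ℝ) ≤ c * (q : ℝ) ^ ((m : ℝ) / (m - 1)) →
    ∃ χ : Sym2 (Fin n) → Fin q, ∀ i, ((2 * m : ℕ) : ℕ∞) < (colourClass χ i).egirth

/-- the girth is greater than `2 m` -/
def Gir (m : ℕ) (V : Type) (G : SimpleGraph V) : Prop := ((2 * m : ℕ) : ℕ∞) < G.egirth

lemma gir_iff (m : ℕ) (V : Type) (G : SimpleGraph V) :
    NoCyc {j | j ≤ 2 * m} V G ↔ Gir m V G := by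
  constructor
  · intro h
    refine lt_of_lt_of_le (b := ((2 * m + 1 : ℕ) : ℕ∞)) (by exact_mod_cast Nat.lt_succ_self _) ?_
    rw [le_egirth]
    intro a w hw
    by_contra hlt
    have hlt' : w.length < 2 * m + 1 := by
      rw [not_le] at hlt
      exact_mod_cast hlt
    have h3 := hw.three_le_length
    exact h w.length (show w.length ≤ 2 * m by omega) h3
      ((cycleGraph_isContained_iff (by omega)).mpr ⟨a, w, hw, rfl⟩)
  · intro h j hj hj3 hcon
    obtain ⟨v, p, hp, hl⟩ := (cycleGraph_isContained_iff (by omega)).mp hcon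
    have h1 := egirth_le_length hp
    have h2 : ((2 * m : ℕ) : ℕ∞) < (p.length : ℕ∞) := lt_of_lt_of_le h h1
    have h3 : 2 * m < p.length := by exact_mod_cast h2
    have hj' : j ≤ 2 * m := hj
    omega

lemma gir_eq (m : ℕ) : NoCyc {j | j ≤ 2 * m} = Gir m := by
  funext V G
  exact propext (gir_iff m V G)

lemma gir_class (m : ℕ) : LIClass (Gir m) := by
  rw [← gir_eq]
  refine noCyc_class _ fun a ha j _ hj => ?_
  have ha' : a ≤ 2 * m := ha
  show _ ≤ 2 * m
  omega

lemma gir_up {m : ℕ} (hm : 2 ≤ m) : ∃ C : ℝ, ∀ (V : Type) [Fintype V] (G : SimpleGraph V),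
    Gir m V G → (G.edgeSet.ncard : ℝ) ≤ C * (Fintype.card V : ℝ) ^ (1 + 1 / (m : ℝ)) := by
  refine ⟨_, fun V _ G hG => bs hm V G ?_⟩
  rw [← gir_eq] at hG
  exact hG (2 * m) (by simp) (by omega)

lemma exps {k : ℕ} (hk : 2 ≤ k) : (1 : ℝ) < 1 + 1 / (k : ℝ) ∧ 1 + 1 / (k : ℝ) < 2 ∧
    2 - (1 + 1 / (k : ℝ)) = 1 - 1 / (k : ℝ) ∧
    1 / (2 - (1 + 1 / (k : ℝ))) = (k : ℝ) / (k - 1) ∧
    1 + 1 / (k : ℝ) - 1 = 1 / (k : ℝ) ∧ -(2 - (1 + 1 / (k : ℝ))) = 1 / (k : ℝ) - 1 := by
  have hk0 : (0 : ℝ) < k := by exact_mod_cast (by omega : 0 < k)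
  have hk1 : (2 : ℝ) ≤ k := by exact_mod_cast hk
  have h1 : 0 < 1 / (k : ℝ) := by positivity
  have h2 : 1 / (k : ℝ) ≤ 1 / 2 := one_div_le_one_div_of_le (by norm_num) hk1
  refine ⟨by linarith, by linarith, by ring, ?_, by ring, by ring⟩
  have h3 : 2 - (1 + 1 / (k : ℝ)) = (k - 1) / k := by
    field_simp
    ring
  rw [h3, one_div_div]

lemma girth_equiv {m : ℕ} (hm : 2 ≤ m) :
    (GirthConjecture m ↔ Decomposition m) ∧ (GirthConjecture m ↔ RelativeTuran m) ∧
      (GirthConjecture m ↔ Ramsey m) := by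
  have h := four_equiv (gir_class m) (1 + 1 / (m : ℝ)) (exps hm).1 (exps hm).2.1 (gir_up hm)
  have e1 : GirthConjecture m ↔ Dense (Gir m) (1 + 1 / (m : ℝ)) := Iff.rfl
  have e2 : Decomposition m ↔ DecomposesB (Gir m) (2 - (1 + 1 / (m : ℝ))) (1 + 1 / (m : ℝ) - 1) := by
    rw [DecomposesB, (exps hm).2.2.1, (exps hm).2.2.2.2.1]
    exact Iff.rfl
  have e3 : RelativeTuran m ↔ Relative (Gir m) (2 - (1 + 1 / (m : ℝ))) := by
    rw [Relative, (exps hm).2.2.2.2.2]
    exact Iff.rfl
  have e4 : Ramsey m ↔ Colours (Gir m) (2 - (1 + 1 / (m : ℝ))) := by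
    rw [Colours, (exps hm).2.2.2.1]
    exact Iff.rfl
  rw [e1, e2, e3, e4]
  exact h

lemma girth_small {m : ℕ} (hm : m = 2 ∨ m = 3) : GirthConjecture m := by
  have hm2 : 2 ≤ m := by omega
  obtain ⟨c, hc, N, h⟩ := wenger_dense m (by omega)
  refine ⟨c / 2 ^ 9, by positivity, N, fun n hn => ?_⟩
  obtain ⟨G, hG, hd⟩ := h n hn
  obtain ⟨G₁, hG₁, hcol, hv₁⟩ := bip_sub G
  obtain ⟨G₂, hG₂, h4, hv₂⟩ := clean G₁ 4 (m - 1) (by norm_num) (by omega) (by
    have : 2 + (m - 1) * (4 - 2) = 2 * m := by omega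
    rw [this]
    exact free_of_le hG₁ hG)
  have hcol₂ : G₂.Colorable 2 := hcol.mono_left hG₂
  refine ⟨G₂, ?_, ?_⟩
  · have : NoCyc {j | j ≤ 2 * m} (Fin n) G₂ := by
      intro j hj hj3
      replace hj : j ≤ 2 * m := hj
      rcases Nat.even_or_odd j with he | ho
      · have : j = 4 ∨ j = 2 * m := by
          obtain ⟨t, ht⟩ := he
          omega
        rcases this with rfl | rfl
        · exact h4
        · exact free_of_le (hG₂.trans hG₁) hG
      · exact bip_odd hcol₂ j ho hj3
    exact (gir_iff m _ _).mp this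
  · rw [vol_eq, vol_eq] at hv₁ hv₂
    push_cast at hv₁ hv₂
    have hk8 : 2 + (m - 1) * (4 - 2) + 2 ≤ 8 := by omega
    have h1 : (2 * (G₁.edgeSet.ncard : ℝ)) ≤ 2 ^ 8 * (2 * (G₂.edgeSet.ncard : ℝ)) := by
      rw [div_le_iff₀ (by positivity)] at hv₂
      refine hv₂.trans ?_
      rw [mul_comm]
      exact mul_le_mul_of_nonneg_right (pow_le_pow_right₀ (by norm_num) hk8) (by positivity)
    rw [div_mul_eq_mul_div, div_le_iff₀ (by positivity)]
    linarith

/-- **The girth conjecture, decompositions of all graphs of bounded degree, and Ramsey numbers.** -/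
theorem result :
    -- (1) the equivalences
    (∀ m : ℕ, 2 ≤ m → (GirthConjecture m ↔ Decomposition m) ∧
      (GirthConjecture m ↔ RelativeTuran m) ∧ (GirthConjecture m ↔ Ramsey m)) ∧
    -- (2) the statements hold for `m = 2` and `m = 3`
    (∀ m : ℕ, m = 2 ∨ m = 3 → Decomposition m ∧ RelativeTuran m ∧ Ramsey m) := by
  refine ⟨fun m hm => girth_equiv hm, fun m hm => ?_⟩
  have h := girth_small hm
  have hm2 : 2 ≤ m := by omega
  exact ⟨(girth_equiv hm2).1.mp h, (girth_equiv hm2).2.1.mp h, (girth_equiv hm2).2.2.mp h⟩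

end Pool.Agent.Results.MP_97687e_co.DecompositionForm
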