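import Mathlib
import Pool.Agent.H46.EX.EquivF
import Pool.Agent.H55.Cyc
import Pool.Graph.R_seed8.H7R2.LG.Dense

/-!
# Graphs of large girth, decompositions and Ramsey numbers, for every order of growth

Let `γ (n, m)` be the largest number of edges of a graph with `n` vertices and girth greater than
`2 m`. The girth conjecture says `γ (n, m) ≥ c n ^ (1 + 1 / m)`; the order of `γ (n, m)` is unknown
for all `m` except `2`, `3`, `5`. The results of this file do not assume anything about it.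

(1) For every `δ > 0` there is `C` such that every finite graph `H` with all degrees at most `d`
(and any number of vertices) is the union of at most
`C max_{1 ≤ k ≤ d} (d / k) ^ δ k ^ 2 / γ (k + 1, m)` subgraphs of girth greater than `2 m`. On the
other hand the complete graph on `k + 1` vertices, which has degree `k`, is not the union of fewer
than `k (k + 1) / (2 γ (k + 1, m))` such graphs.

(2) For every positive function `φ` with `(n / m) ^ δ / L ≤ φ n / φ m ≤ L n / m` for `1 ≤ m ≤ n`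
(`δ > 0` and `L` fixed) the following are equivalent:

* (T) `γ (n, m) ≥ c n ^ 2 / φ n` for some `c > 0` and all large `n`.
* (D) Every finite graph with all degrees at most `d` is the union of at most `C φ d` subgraphs
  of girth greater than `2 m` with all degrees at most `C d / φ d`.
* (E) Every finite graph `H` with all degrees at most `d` has a subgraph of girth greater than `2 m`
  with at least `c e(H) / φ d` edges.
* (R) The edges of the complete graph on `n` vertices can be coloured with at most `C φ n` colours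
  such that every colour class has girth greater than `2 m`, for all `n`.

(3) (D), (E) and (R) hold for `m ≥ 4` and `φ n = n ^ (1 - 3 / D m)`, where
`D m = 4 m + 2 - 2 ⌊m / 8⌋` for odd `m` and `D m = 4 m + 4 - ⌊m / 4⌋` for even `m`.

Proof. A graph of girth greater than `2 m` with `n` vertices and about `n ^ 2 / φ n` edges becomes a
graph with `O (n)` vertices and all degrees `O (n / φ n)` when its vertices of large degree are
split; this creates no short cycles. Then random maps from `H` to this graph, the local lemma, and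
iteration, as in `Pool.Agent.H55`. For (1) this is applied to
`φ d = max_{k ≤ d} (d / k) ^ δ k ^ 2 / γ (k + 1, m)`; the upper bound for the growth of this function
comes from disjoint copies. (3) uses the dense graphs of large girth of the library.
-/

set_option autoImplicit false

namespace Pool.Agent.Results.MP_97687e_co.EveryGrowth

open SimpleGraph Pool.Agent.H55 Pool.Agent.H46.EX

/-- the girth is greater than `2 m` -/
def Gir (m : ℕ) (V : Type) (G : SimpleGraph V) : Prop := ((2 * m : ℕ) : ℕ∞) < G.egirth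

/-- `γ (n, m)`: the largest number of edges of a graph with `n` vertices and girth greater than
`2 m`. -/
noncomputable def gam (n m : ℕ) : ℕ :=
  sSup {e | ∃ G : SimpleGraph (Fin n), Gir m (Fin n) G ∧ G.edgeSet.ncard = e}

/-- `φ` is positive and for some `δ > 0` and `L`,
`(n / m) ^ δ φ m ≤ L φ n` and `φ n ≤ L (n / m) φ m` for all `1 ≤ m ≤ n`. -/
def Regular (φ : ℕ → ℝ) : Prop :=
  (∀ n : ℕ, 1 ≤ n → 0 < φ n) ∧ ∃ δ L : ℝ, 0 < δ ∧ ∀ m n : ℕ, 1 ≤ m → m ≤ n →
    ((n : ℝ) / m) ^ δ * φ m ≤ L * φ n ∧ φ n ≤ L * ((n : ℝ) / m * φ m)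

/-- (T) `γ (n, m) ≥ c n ^ 2 / φ n` for some `c > 0` and all large `n`. -/
def Turan (m : ℕ) (φ : ℕ → ℝ) : Prop :=
  ∃ c : ℝ, 0 < c ∧ ∃ N : ℕ, ∀ n : ℕ, N ≤ n → c * ((n : ℝ) ^ 2 / φ n) ≤ gam n m

/-- (D) Every finite graph with all degrees at most `d` is the union of at most `C φ d` subgraphs
of girth greater than `2 m` with all degrees at most `C d / φ d`. -/
def Decomposition (m : ℕ) (φ : ℕ → ℝ) : Prop :=
  ∃ C : ℝ, ∀ (V : Type) [Finite V] (H : SimpleGraph V) (d : ℕ), 1 ≤ d →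
    (∀ x, (H.neighborSet x).ncard ≤ d) →
    ∃ M : ℕ, (M : ℝ) ≤ C * φ d ∧
      UnionOf (fun F : SimpleGraph V => Gir m V F ∧
        ∀ x, ((F.neighborSet x).ncard : ℝ) ≤ C * (d / φ d)) H M

/-- (E) Every finite graph `H` with all degrees at most `d` has a subgraph of girth greater than
`2 m` with at least `c e(H) / φ d` edges. -/
def RelativeTuran (m : ℕ) (φ : ℕ → ℝ) : Prop :=
  ∃ c : ℝ, 0 < c ∧ ∀ (V : Type) [Finite V] (H : SimpleGraph V) (d : ℕ), 1 ≤ d →
    (∀ x, (H.neighborSet x).ncard ≤ d) → ∃ F ≤ H, Gir m V F ∧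
      c * ((H.edgeSet.ncard : ℝ) / φ d) ≤ (F.edgeSet.ncard : ℝ)

/-- (R) The edges of the complete graph on `n ≥ 1` vertices can be coloured with at most `C φ n`
colours such that all colour classes have girth greater than `2 m`. -/
def Ramsey (m : ℕ) (φ : ℕ → ℝ) : Prop :=
  ∃ C : ℝ, ∀ n : ℕ, 1 ≤ n → ∃ q : ℕ, (q : ℝ) ≤ C * φ n ∧
    ∃ χ : Sym2 (Fin n) → Fin q, ∀ i, Gir m (Fin n) (colourClass χ i)

/-- `D m = 4 m + 2 - 2 ⌊m / 8⌋` for odd `m`, `D m = 4 m + 4 - ⌊m / 4⌋` for even `m`. -/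
def D (m : ℕ) : ℕ := if Odd m then 4 * m + 2 - 2 * (m / 8) else 4 * m + 4 - m / 4

lemma gir_iff (m : ℕ) (V : Type) (G : SimpleGraph V) :
    NoCyc {j | j ≤ 2 * m} V G ↔ Gir m V G := by
  constructor
  · intro h
    refine lt_of_lt_of_le (b := ((2 * m + 1 : ℕ) : ℕ∞)) (by exact_mod_cast Nat.lt_succ_self _) ?_
    rw [le_egirth]
    intro a w hw
    by_contra hlt
    have hlt' : w.length < 2 * m + 1 := by
      rw [not_le] at hlt
      exact_mod_cast hlt
    have h3 := hw.three_le_length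
    exact h w.length (show w.length ≤ 2 * m by omega) h3
      ((cycleGraph_isContained_iff (by omega)).mpr ⟨a, w, hw, rfl⟩)
  · intro h j hj hj3 hcon
    obtain ⟨v, p, hp, hl⟩ := (cycleGraph_isContained_iff (by omega)).mp hcon
    have h1 := egirth_le_length hp
    have h2 : ((2 * m : ℕ) : ℕ∞) < (p.length : ℕ∞) := lt_of_lt_of_le h h1
    have h3 : 2 * m < p.length := by exact_mod_cast h2
    have hj' : j ≤ 2 * m := hj
    omega

lemma gir_eq (m : ℕ) : NoCyc {j | j ≤ 2 * m} = Gir m := by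
  funext V G
  exact propext (gir_iff m V G)

lemma gir_class (m : ℕ) : LIClass (Gir m) := by
  rw [← gir_eq]
  refine noCyc_class _ fun a ha j _ hj => ?_
  have ha' : a ≤ 2 * m := ha
  show _ ≤ 2 * m
  omega

lemma isEx (m : ℕ) : IsEx (Gir m) (fun n => gam n m) := by
  intro n
  have hbdd : BddAbove {e | ∃ G : SimpleGraph (Fin n), Gir m (Fin n) G ∧ G.edgeSet.ncard = e} := by
    refine ⟨Nat.card (Sym2 (Fin n)), ?_⟩
    rintro e ⟨G, -, rfl⟩
    exact Set.ncard_le_card _
  constructor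
  · have h := Nat.sSup_mem (s := {e | ∃ G : SimpleGraph (Fin n), Gir m (Fin n) G ∧
      G.edgeSet.ncard = e}) ⟨_, ⊥, (gir_class m).single ⊥ (by simp), rfl⟩ hbdd
    exact h
  · intro G hG
    exact le_csSup hbdd ⟨G, hG, rfl⟩

lemma turan_iff (m : ℕ) (φ : ℕ → ℝ) : Turan m φ ↔ DenseF (Gir m) φ := by
  constructor
  · rintro ⟨c, hc, N, h⟩
    refine ⟨c, hc, N, fun n hn => ?_⟩
    obtain ⟨⟨G, hG, he⟩, _⟩ := isEx m n
    refine ⟨G, hG, ?_⟩
    rw [he]
    exact h n hn
  · rintro ⟨c, hc, N, h⟩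
    refine ⟨c, hc, N, fun n hn => ?_⟩
    obtain ⟨G, hG, hd⟩ := h n hn
    exact hd.trans (by exact_mod_cast (isEx m n).2 G hG)

lemma equivs (m : ℕ) (φ : ℕ → ℝ) (hφ : Regular φ) : (Turan m φ ↔ Decomposition m φ) ∧
    (Turan m φ ↔ RelativeTuran m φ) ∧ (Turan m φ ↔ Ramsey m φ) := by
  obtain ⟨hpos, δ, L, hδ, h⟩ := hφ
  rw [turan_iff]
  exact four_equivF (gir_class m)
    (⟨hpos, fun m n hm hmn => (h m n hm hmn).1, fun m n hm hmn => (h m n hm hmn).2⟩ :
      WReg φ δ L) hδ

lemma regular_rpow {β : ℝ} (h0 : 0 < β) (h1 : β ≤ 1) : Regular (fun n : ℕ => (n : ℝ) ^ β) := by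
  refine ⟨fun n hn => ?_, β, 1, h0, fun m n hm hmn => ?_⟩
  · have : (0 : ℝ) < n := by exact_mod_cast hn
    positivity
  · have hm0 : (0 : ℝ) < m := by exact_mod_cast hm
    have hn0 : (0 : ℝ) < n := by exact_mod_cast (by omega : 0 < n)
    have hmn' : (1 : ℝ) ≤ n / m := by
      rw [one_le_div hm0]
      exact_mod_cast hmn
    have e : ((n : ℝ) / m) ^ β * (m : ℝ) ^ β = (n : ℝ) ^ β := by
      rw [← Real.mul_rpow (by positivity) (by positivity), div_mul_cancel₀ _ hm0.ne']
    refine ⟨by rw [e, one_mul], ?_⟩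
    show (n : ℝ) ^ β ≤ 1 * ((n : ℝ) / m * (m : ℝ) ^ β)
    rw [one_mul, ← e]
    refine mul_le_mul_of_nonneg_right ?_ (by positivity)
    calc ((n : ℝ) / m) ^ β ≤ (n / m) ^ (1 : ℝ) := Real.rpow_le_rpow_of_exponent_le hmn' h1
      _ = n / m := Real.rpow_one _

lemma dense_girth (m : ℕ) (hm : 4 ≤ m) : Turan m (fun n : ℕ => (n : ℝ) ^ (1 - 3 / (D m : ℝ))) := by
  have key : ∃ c : ℝ, 0 < c ∧ ∀ᶠ n : ℕ in Filter.atTop,
      ∃ G : SimpleGraph (Fin n), ((2 * m : ℕ) : ℕ∞) < G.egirth ∧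
        c * (n : ℝ) ^ (1 + 3 / (D m : ℝ)) ≤ (G.edgeSet.ncard : ℝ) := by
    by_cases ho : Odd m
    · have := Pool.Agent.H7R2.LG.dense_odd m ho
      rwa [D, if_pos ho]
    · have := Pool.Agent.H7R2.LG.dense_four m hm
      rwa [D, if_neg ho]
  obtain ⟨c, hc, h⟩ := key
  obtain ⟨N, hN⟩ := Filter.eventually_atTop.mp h
  refine (turan_iff m _).mpr ⟨c, hc, N + 1, fun n hn => ?_⟩
  obtain ⟨G, hG, he⟩ := hN n (by omega)
  refine ⟨G, hG, le_trans (le_of_eq ?_) he⟩
  have hn0 : (0 : ℝ) < n := by exact_mod_cast (by omega : 0 < n)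
  congr 1
  have h2 : (n : ℝ) ^ 2 = (n : ℝ) ^ (2 : ℝ) := by norm_cast
  rw [h2, ← Real.rpow_sub hn0]
  congr 1
  ring

/-- **Graphs of large girth, decompositions of all graphs of bounded degree, and Ramsey numbers,
for every order of growth.** -/
theorem result :
    -- (1) decompositions, without any hypothesis
    (∀ m : ℕ, ∀ δ : ℝ, 0 < δ → ∃ C : ℝ, ∀ (V : Type) [Finite V] (H : SimpleGraph V) (d : ℕ),
      1 ≤ d → (∀ x, (H.neighborSet x).ncard ≤ d) → ∃ M k : ℕ, 1 ≤ k ∧ k ≤ d ∧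
        (M : ℝ) ≤ C * (((d : ℝ) / k) ^ δ * ((k : ℝ) ^ 2 / gam (k + 1) m)) ∧
        UnionOf (Gir m V) H M) ∧
    (∀ m k M : ℕ, UnionOf (Gir m (Fin (k + 1))) ⊤ M → k * (k + 1) ≤ 2 * (M * gam (k + 1) m)) ∧
    -- (2) the equivalences, for every order of growth
    (∀ (m : ℕ) (φ : ℕ → ℝ), Regular φ → (Turan m φ ↔ Decomposition m φ) ∧
      (Turan m φ ↔ RelativeTuran m φ) ∧ (Turan m φ ↔ Ramsey m φ)) ∧
    -- (3) unconditional cases
    (∀ m : ℕ, 4 ≤ m → Decomposition m (fun n : ℕ => (n : ℝ) ^ (1 - 3 / (D m : ℝ))) ∧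
      RelativeTuran m (fun n : ℕ => (n : ℝ) ^ (1 - 3 / (D m : ℝ))) ∧
      Ramsey m (fun n : ℕ => (n : ℝ) ^ (1 - 3 / (D m : ℝ)))) := by
  refine ⟨fun m δ hδ => dec_free (gir_class m) (isEx m) δ hδ,
    fun m k M h => dec_lower (isEx m) k M h, equivs, fun m hm => ?_⟩
  have hD : (4 : ℝ) ≤ D m := by
    have : 4 ≤ D m := by
      unfold D
      split_ifs <;> omega
    exact_mod_cast this
  have h1 : 0 < 3 / (D m : ℝ) := by positivity
  have h2 : 3 / (D m : ℝ) < 1 := by
    rw [div_lt_one (by linarith)]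
    linarith
  have h := equivs m _ (regular_rpow (β := 1 - 3 / (D m : ℝ)) (by linarith) (by linarith))
  have hT := dense_girth m hm
  exact ⟨h.1.mp hT, h.2.1.mp hT, h.2.2.mp hT⟩

end Pool.Agent.Results.MP_97687e_co.EveryGrowth
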