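import Pool.Agent.H49.Gap.Sharp

/-!
# The girth conjecture and the longer half of the even cycles

Gap theorem: if a finite graph `G` has no cycle whose length lies in `(L, 2L-2]`, then `G` has a
subgraph of girth larger than `2L-2` with at least the fraction `1/(c+1)` of its edges, `c` being the
number of different lengths of cycles of `G` of length at most `L`; the factor is sharp.
Consequently the girth conjecture for `m` only concerns the even cycles of length in `(m+1, 2m]`.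
-/

set_option autoImplicit false

namespace Pool.Agent.Results.MP_97687e_co.LongerHalf

open SimpleGraph

/-- `G` has no cycle whose length `ℓ` satisfies `a < ℓ ≤ b`. -/
def NoCycleIn {V : Type} (G : SimpleGraph V) (a b : ℕ) : Prop :=
  ∀ (v : V) (w : G.Walk v v), w.IsCycle → ¬ (a < w.length ∧ w.length ≤ b)

/-- `G` has no cycle of even length `ℓ` with `a < ℓ ≤ b`. -/
def NoEvenCycleIn {V : Type} (G : SimpleGraph V) (a b : ℕ) : Prop :=
  ∀ (v : V) (w : G.Walk v v), w.IsCycle → Even w.length → ¬ (a < w.length ∧ w.length ≤ b)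

/-- The set of lengths of the cycles of `G` of length at most `L`. -/
def shortLengths {V : Type} (G : SimpleGraph V) (L : ℕ) : Set ℕ :=
  {ℓ | ℓ ≤ L ∧ ∃ (v : V) (w : G.Walk v v), w.IsCycle ∧ w.length = ℓ}

theorem result :
    -- (1) the gap theorem
    (∀ (V : Type) [Finite V] (G : SimpleGraph V) (L : ℕ), NoCycleIn G L (2 * L - 2) →
      ∃ H ≤ G, ((2 * L - 2 : ℕ) : ℕ∞) < H.egirth ∧
        G.edgeSet.ncard ≤ ((shortLengths G L).ncard + 1) * H.edgeSet.ncard) ∧
    -- (2) the factor is sharp, already for bipartite graphs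
    (∀ (s : ℕ) (κ : ℝ), 1 ≤ s → κ < s → ∃ (N : ℕ) (G : SimpleGraph (Fin s ⊕ Fin N)),
      (∀ (v : Fin s ⊕ Fin N) (w : G.Walk v v), w.IsCycle → Even w.length ∧ w.length ≤ 2 * s) ∧
      ∀ H ≤ G, ((2 * s : ℕ) : ℕ∞) < H.egirth →
        κ * (H.edgeSet.ncard : ℝ) < (G.edgeSet.ncard : ℝ)) ∧
    -- (3) the longer half of the even cycles up to `2m` suffices
    (∀ (V : Type) [Finite V] (G : SimpleGraph V) (m : ℕ), 1 ≤ m → NoEvenCycleIn G (m + 1) (2 * m) →
      ∃ H ≤ G, H.IsBipartite ∧ ((2 * m : ℕ) : ℕ∞) < H.egirth ∧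
        G.edgeSet.ncard ≤ 2 * ((m + 1) / 2) * H.edgeSet.ncard) ∧
    -- (4) reformulation of the girth conjecture for `m`
    (∀ m : ℕ, 1 ≤ m →
      ((∃ c : ℝ, 0 < c ∧ ∃ N : ℕ, ∀ n : ℕ, N ≤ n → ∃ G : SimpleGraph (Fin n),
          ((2 * m : ℕ) : ℕ∞) < G.egirth ∧
          c * (n : ℝ) ^ ((1 : ℝ) + 1 / (m : ℝ)) ≤ (G.edgeSet.ncard : ℝ)) ↔
        (∃ c : ℝ, 0 < c ∧ ∃ N : ℕ, ∀ n : ℕ, N ≤ n → ∃ G : SimpleGraph (Fin n),
          NoEvenCycleIn G (m + 1) (2 * m) ∧
          c * (n : ℝ) ^ ((1 : ℝ) + 1 / (m : ℝ)) ≤ (G.edgeSet.ncard : ℝ)))) := by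
  have egirth_of : ∀ {V : Type} (H : SimpleGraph V) (k : ℕ),
      (∀ (v : V) (w : H.Walk v v), w.IsCycle → k < w.length) → ((k : ℕ) : ℕ∞) < H.egirth := by
    intro V H k h
    have h1 : ((k + 1 : ℕ) : ℕ∞) ≤ H.egirth := by
      rw [SimpleGraph.le_egirth]
      intro v w hw
      exact_mod_cast h v w hw
    refine lt_of_lt_of_le ?_ h1
    exact_mod_cast Nat.lt_succ_self k
  have of_egirth : ∀ {V : Type} (H : SimpleGraph V) (k : ℕ), ((k : ℕ) : ℕ∞) < H.egirth →
      ∀ (v : V) (w : H.Walk v v), w.IsCycle → k < w.length := by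
    intro V H k h v w hw
    have h1 := lt_of_lt_of_le h (SimpleGraph.egirth_le_length hw)
    exact_mod_cast h1
  have part4 : ∀ (V : Type) [Finite V] (G : SimpleGraph V) (m : ℕ), 1 ≤ m →
      NoEvenCycleIn G (m + 1) (2 * m) →
      ∃ H ≤ G, H.IsBipartite ∧ ((2 * m : ℕ) : ℕ∞) < H.egirth ∧
        G.edgeSet.ncard ≤ 2 * ((m + 1) / 2) * H.edgeSet.ncard := by
    intro V _ G m hm hG
    obtain ⟨H, hHG, f, hf, hH, hc⟩ := Pool.Agent.H49.Gap.longer_half G m hm (by
      intro v w hw hev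
      have := hG v w hw hev
      omega)
    refine ⟨H, hHG, ?_, egirth_of H _ (fun v w hw => (hH v w hw).2), hc⟩
    let c : H.Coloring Bool := SimpleGraph.Coloring.mk f (fun {a b} h => hf a b h)
    have := c.colorable
    rwa [Fintype.card_bool] at this
  refine ⟨?_, ?_, part4, ?_⟩
  · intro V _ G L hG
    classical
    have hfin : (shortLengths G L).Finite :=
      (Set.finite_Iic L).subset (fun ℓ h => h.1)
    obtain ⟨H, hHG, hH, hc⟩ := Pool.Agent.H49.Gap.gap G L hfin.toFinset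
      (fun s hs => ((Set.Finite.mem_toFinset hfin).mp hs).1) (by
        intro v w hw
        have h1 := hG v w hw
        by_cases h2 : w.length ≤ L
        · left
          rw [Set.Finite.mem_toFinset]
          exact ⟨h2, v, w, hw, rfl⟩
        · right
          omega)
    refine ⟨H, hHG, egirth_of H _ (fun v w hw => ?_), ?_⟩
    · have := hH v w hw
      have := hw.three_le_length
      omega
    · rwa [Set.ncard_eq_toFinset_card _ hfin]
  · intro s κ hs hκ
    have hs' : (0 : ℝ) < s - κ := by linarith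
    obtain ⟨N, hN⟩ := exists_nat_gt (max 0 ((|κ| * s) / (s - κ)))
    have hN0 : (0 : ℝ) < N := lt_of_le_of_lt (le_max_left _ _) hN
    have hN1 : (|κ| * s) / (s - κ) < N := lt_of_le_of_lt (le_max_right _ _) hN
    have hN1' : |κ| * s < N * (s - κ) := by rwa [div_lt_iff₀ hs'] at hN1
    have hNpos : 1 ≤ N := by
      have : 0 < N := by exact_mod_cast hN0
      exact this
    refine ⟨N, completeBipartiteGraph (Fin s) (Fin N), fun v w hw =>
      Pool.Agent.H49.Gap.kbip_cycles s N v w hw, ?_⟩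
    intro H hH hg
    have h1 := Pool.Agent.H49.Gap.kbip_sharp hs hNpos H hH (of_egirth H _ hg)
    rw [Pool.Agent.H49.Gap.kbip_card]
    have h2 : (H.edgeSet.ncard : ℝ) ≤ s + N := by
      have : H.edgeSet.ncard ≤ s + N := by omega
      exact_mod_cast this
    have h0 : (0 : ℝ) ≤ (H.edgeSet.ncard : ℝ) := Nat.cast_nonneg _
    push_cast
    rcases le_or_gt κ 0 with hk | hk
    · have hs0 : (0 : ℝ) < s := by exact_mod_cast hs
      nlinarith [mul_pos hs0 hN0]
    · rw [abs_of_pos hk] at hN1'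
      nlinarith
  · intro m hm
    constructor
    · rintro ⟨c, hc, N, h⟩
      refine ⟨c, hc, N, fun n hn => ?_⟩
      obtain ⟨G, hG, hcard⟩ := h n hn
      refine ⟨G, fun v w hw _ => ?_, hcard⟩
      have := of_egirth G _ hG v w hw
      omega
    · rintro ⟨c, hc, N, h⟩
      have hm0 : (0 : ℝ) < (m : ℝ) + 1 := by positivity
      refine ⟨c / ((m : ℝ) + 1), by positivity, N, fun n hn => ?_⟩
      obtain ⟨G, hG, hcard⟩ := h n hn
      obtain ⟨H, -, -, hH, hHc⟩ := part4 (Fin n) G m hm hG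
      refine ⟨H, hH, ?_⟩
      have h1 : (G.edgeSet.ncard : ℝ) ≤ ((m : ℝ) + 1) * (H.edgeSet.ncard : ℝ) := by
        have h2 : G.edgeSet.ncard ≤ (m + 1) * H.edgeSet.ncard :=
          hHc.trans (Nat.mul_le_mul_right _ (by omega))
        exact_mod_cast h2
      rw [div_mul_eq_mul_div, div_le_iff₀ hm0]
      linarith

end Pool.Agent.Results.MP_97687e_co.LongerHalf
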